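import Pool.Agent.H45.Lib.Ts3997aac3.Q276.PL.Stm
import Pool.Agent.H45.Lib.S8.H38R2.CG.Stubs

/-! Statements for: regulators and class numbers of almost all real quadratic fields. Uses the
definitions of `Pool.Agent.H38R2.CG` (`IsFund`, `Lone D` = L(1, chi_D)). -/

set_option autoImplicit false

namespace Pool.Agent.Q276.PL

open Finset Filter NumberField Pool.Agent.H38R2.CG
open scoped Classical

noncomputable section

/-- The discriminant of `ℚ(√d)` for squarefree `d > 1`. -/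
def dsc (d : ℕ) : ℕ := if d % 4 = 1 then d else 4 * d

/-- There is a unit `(t + u √D) / 2`, `t, u > 0`, of size at most `B` of the discriminant `D`. -/
def SmallUnit (D : ℕ) (B : ℝ) : Prop := ∃ t u : ℕ, 0 < t ∧ 0 < u ∧
  ((t : ℤ) ^ 2 - (D : ℤ) * (u : ℤ) ^ 2 = 4 ∨ (t : ℤ) ^ 2 - (D : ℤ) * (u : ℤ) ^ 2 = -4) ∧
  ((t : ℝ) + (u : ℝ) * √(D : ℝ)) / 2 ≤ B

/-- RGB: few squarefree `d ≤ X` with a small unit.

Proof from UFIN, UNI. For `d ≤ X` with `D = dsc d ≥ 5` and the unit `(t + u √D)/2 ≤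
exp ((log X)^(3/2-δ))`, UNI gives `x, y ≥ 1` with `x ^ 2 - D y ^ 2 = 1`, `x + y √D ≤
exp (6 (log X)^(3/2-δ)) ≤ exp ((log X)^(3/2-δ/2))` for large `X`. If `D = 4 d` replace `y` by
`2 y ≤ y √D`. So `d` is counted by UFIN with `δ/2`. Small `X` by `M`. -/
def StmtRGB : Prop := ∀ δ : ℝ, 0 < δ → δ < 1 / 2 → ∃ M : ℝ, ∀ X : ℕ, 2 ≤ X →
  (((Finset.Icc 2 X).filter (fun d => Squarefree d ∧
    SmallUnit (dsc d) (Real.exp (Real.log X ^ (3 / 2 - δ))))).card : ℝ) ≤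
    M * X * Real.exp (-(Real.log X ^ (δ / 8)))

/-- CNF: the class number formula.

Proof. `T_N3` (Pool.Agent.H38R2.CG.N3; assembled in Pool.Agent.H951R5.AR.All) gives that the number
of ideals of norm at most `N` divided by `N` tends to `Lone D`; by Mathlib (used in the same file,
`kap`) it tends to `2 ^ r₁ (2π) ^ r₂ R h / (w √D)` with `r₁ = 2`, `r₂ = 0`, `w = 2`
(`signature_real`, `torsion_real` in Pool/Agent/H140/LD/Real.lean, for `K = ℚ(√d)`; `D = dsc d`). -/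
def StmtCNF : Prop := ∀ (K : Type) [Field K] [NumberField K] (d : ℕ), 1 < d → Squarefree d →
  Module.finrank ℚ K = 2 → (∃ x : K, x ^ 2 = (d : K)) →
  2 * Units.regulator K * (classNumber K : ℝ) = √(dsc d : ℝ) * Lone (dsc d)

/-- REG: the regulator is the logarithm of a unit `(t + u √D) / 2`, `t, u > 0`.

Proof. Unit rank one; take a fundamental unit `ε` with `σ ε > 1` (change sign, invert); coordinates
`Emb.int1` (`T_N0`), norm `± 1`, so `t = σ ε + τ ε > 0`, `u √D = σ ε - τ ε > 0`;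
`regulator_real` in Pool/Agent/H140/LD/Real.lean. -/
def StmtREG : Prop := ∀ (K : Type) [Field K] [NumberField K] (d : ℕ), 1 < d → Squarefree d →
  Module.finrank ℚ K = 2 → (∃ x : K, x ^ 2 = (d : K)) → ∃ t u : ℕ, 0 < t ∧ 0 < u ∧
  ((t : ℤ) ^ 2 - (dsc d : ℤ) * (u : ℤ) ^ 2 = 4 ∨ (t : ℤ) ^ 2 - (dsc d : ℤ) * (u : ℤ) ^ 2 = -4) ∧
  Units.regulator K = Real.log (((t : ℝ) + (u : ℝ) * √(dsc d : ℝ)) / 2)

/-- LAV: first moment of L(1, chi_D) over a dyadic block.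

Proof: `P2_LM` with trivial weights (`P2_TRIV`), `z = 2` (so `Qz 2 = 16`, the classes `r` mod 16 with
`r % 4 = 1`, `r = 8`, `r = 12`), `η = 1`, `ε = 1`, any `a` (say 3), summed over the classes; all
inputs are proved, see the list in Pool/Agent/H951R5/AR/All.lean (`h_P2_LM`, `T2_LM`). (Or `T_LM`
of Pool/Agent/H38R2/CG/LM.lean.) -/
def StmtLAV : Prop := ∃ (C : ℝ) (X0 : ℕ), ∀ X ≥ X0,
  ∑ D ∈ (Finset.Ioc X (2 * X)).filter IsFund, Lone D ≤ C * X

/-- LAP: the same over the discriminants of the fields `ℚ(√p)`.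

Proof: `P2_LM` with the upper bound sieve weights of `P2_BH` (`z = 2`, `η = 1`, `ε = 1`, `a = 3`):
`wt ρ D ≥ 1` for `D = p` or `4 p` with `p > X / 4` prime (no divisor `d > 1` in the support, see
P2_WT and how `finalARP` in Pool/Agent/H951R5/AR/Fin.lean and AP.lean in CG2 use it), `Lone D ≥ 0`
(P_NF or P_N3), and `WW`, `GG` are at most `C X / log X`. -/
def StmtLAP : Prop := ∃ (C : ℝ) (X0 : ℕ), ∀ X ≥ X0,
  ∑ D ∈ (Finset.Ioc X (2 * X)).filter (fun D => IsFund D ∧ ∃ p : ℕ, p.Prime ∧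
    (D = p ∨ D = 4 * p)), Lone D ≤ C * X / Real.log X

/-- LNN: nonnegativity (in P_N3 with P_N0e, or P_NF). -/
def StmtLNN : Prop := ∀ D : ℕ, IsFund D → 0 ≤ Lone D

/-- LSM: few large values, all fundamental discriminants. Markov on dyadic blocks; `√X` trivially. -/
def StmtLSM : Prop := ∀ η : ℝ, 0 < η → Tendsto (fun X : ℕ =>
  (((Finset.Icc 2 X).filter (fun D => IsFund D ∧ Real.log D ^ η < Lone D)).card : ℝ) / X)
  atTop (nhds 0)

/-- LSP: few large values, fields `ℚ(√p)`. -/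
def StmtLSP : Prop := ∀ η : ℝ, 0 < η → Tendsto (fun X : ℕ =>
  (((Finset.Icc 2 X).filter (fun D => IsFund D ∧ (∃ p : ℕ, p.Prime ∧ (D = p ∨ D = 4 * p)) ∧
    Real.log D ^ η < Lone D)).card : ℝ) * Real.log X / X)
  atTop (nhds 0)

/-- The class number of `ℚ(√d)` is at most `√d / (log d) ^ (3/2 - δ)`. -/
def GoodC (δ : ℝ) (d : ℕ) : Prop := ∀ (K : Type) [Field K] [NumberField K],
  Module.finrank ℚ K = 2 → (∃ x : K, x ^ 2 = (d : K)) →
  (classNumber K : ℝ) ≤ √(d : ℝ) / Real.log d ^ (3 / 2 - δ)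

/-- CLN: 100% of the squarefree `d`.

Proof from RGB, CNF, REG, LSM. Let `δ < 1/2` (a larger `δ` is weaker as `log d ≥ 1`). For
`√X ≤ d ≤ X` outside the set of RGB for `δ/2` and with `Lone D ≤ (log D) ^ (δ/4)`, `D = dsc d`:
`R > (log X) ^ (3/2 - δ/2)` (REG), so by CNF
`h = √D Lone D / (2 R) ≤ √d (log (4 X)) ^ (δ/4) / (log X) ^ (3/2 - δ/2) ≤ √d / (log d) ^ (3/2 - δ)`
for large `X`. -/
def StmtCLN : Prop := ∀ δ : ℝ, 0 < δ → Tendsto (fun X : ℕ =>
  (((Finset.Icc 2 X).filter (fun d => Squarefree d ∧ ¬ GoodC δ d)).card : ℝ) / X)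
  atTop (nhds 0)

/-- CLP: 100% of the primes. The same with LSP; `exp (-(log X) ^ (δ/16)) log X → 0` and
`π(X) ≥ c X / log X` (P_NB or Mathlib). -/
def StmtCLP : Prop := ∀ δ : ℝ, 0 < δ → Tendsto (fun X : ℕ =>
  (((Finset.Icc 2 X).filter (fun p => p.Prime ∧ ¬ GoodC δ p)).card : ℝ) /
    ((Finset.Icc 2 X).filter Nat.Prime).card)
  atTop (nhds 0)

end

end Pool.Agent.Q276.PL
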