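import Pool.Agent.H45.Lib.S8.W223.PL.Stms

/-! Statements for: for all but few of the squarefree `d ≤ X` the fundamental solution of
`x ^ 2 - d y ^ 2 = 1` exceeds `exp ((log X) ^ (3 / 2 - δ))`. Uses the determinants of the project
PL (`Pool.Agent.W223.PL`), with a number `m` of columns that grows with `X`. -/

set_option autoImplicit false

namespace Pool.Agent.Q276.PL

open Polynomial Pool.Agent.W223.HZ Pool.Agent.W223.PL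

noncomputable section

/-- The least positive solution of `x ^ 2 - d y ^ 2 = 1`. -/
def Fund (d x y : ℤ) : Prop := 1 ≤ x ∧ 1 ≤ y ∧ x ^ 2 - d * y ^ 2 = 1 ∧
  ∀ x' y' : ℤ, 1 ≤ y' → x' ^ 2 - d * y' ^ 2 = 1 → y ≤ y'

/-- PVG: the determinants vanish, uniformly in the number of columns.

Proof from DPG and PP1 (constants C₅, C₄): put `L = D ^ (1/(8m))`, `y i = P i / (Q i √d₀)`. From
`|P ^ 2 - d Q ^ 2| ≤ D ^ (1/8)` one has `|P/Q - √d| ≤ D ^ (1/8) / (Q ^ 2 √d) ≤ D ^ (-3/8) V ^ (-2)`,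
so `|y i - √(d i / d₀)| ≤ e := D ^ (-7/8) V ^ (-2)`. PP1 with `τ i = d i - d₀` (`C₄ L ≤ d₀` as
`L ≤ D ^ (1/8)`) and DPG bound the determinant of `(τ ^ j | y τ ^ j)` by `C₅ ^ (m ^ 2) Y` with
`Y = D ^ (- 7 m / 8 + (m - 1) / 8) V^(-2m) max over |u| ≤ m of D ^ ((1 + 2 σ) |u| - u ^ 2)`
(use `(L/d₀) ^ (u ^ 2) ≤ D ^ (-u ^ 2 + |u| / 8)`, `V ^ (2 u) ≤ D ^ (2 σ |u|)`,
`D ^ (7 u / 8) ≤ D ^ (7 |u| / 8)`), and `(1 + 2 σ) t - t ^ 2 ≤ (1 + 2 σ) ^ 2 / 4 ≤ m / 8`.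
The determinant of `Mat` is `±` the product of the `Q i < 2 V` times `√d₀ ^ m` times that one, so it
is at most `2 ^ (2m) (2 D) ^ (m/2) C₅ ^ (m^2) D ^ (-3m/4 + m/8 - 1/8)
≤ (6 C₅) ^ (m ^ 2) D ^ (- m/8 - 1/8) < 1` if `8 m log (6 C₅) ≤ log D`. An integer. -/
def StmtPVG : Prop := ∃ C₇ : ℝ, 1 ≤ C₇ ∧ ∀ (m : ℕ) (D V σ : ℝ) (d₀ : ℤ)
  (P Q d : Fin m ⊕ Fin m → ℤ), 1 ≤ m → C₇ ≤ D → 0 ≤ σ → 2 * (2 * σ + 1) ^ 2 ≤ m →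
  C₇ * m ≤ Real.log D → 1 ≤ V → V ≤ D ^ σ → D ≤ d₀ → (d₀ : ℝ) ≤ 2 * D →
  (∀ i, D ≤ d i ∧ (d i : ℝ) ≤ 2 * D) → (∀ i, |(d i : ℝ) - d₀| ≤ D ^ (1 / (8 * (m : ℝ)))) →
  (∀ i, V ≤ Q i ∧ (Q i : ℝ) < 2 * V) → (∀ i, 0 ≤ P i) →
  (∀ i, |((P i ^ 2 - d i * Q i ^ 2 : ℤ) : ℝ)| ≤ D ^ ((1 : ℝ) / 8)) →
  (Mat m P Q (fun i => d i - d₀)).det = 0

/-- AR: the factorisation `(x - 1) (x + 1) = d y ^ 2`.

Proof. If `x` is even, `x - 1` and `x + 1` are coprime with product `d y ^ 2`, `d` squarefree, so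
`x - 1 = e r ^ 2`, `x + 1 = e' s ^ 2`, `e e' = d`, `r s = y`, `κ = 2` (and `e r ^ 2`, `e' s ^ 2` are
odd). If `x` is odd, `8 ∣ x ^ 2 - 1 = d y ^ 2`, so `y` is even and `(x-1)/2 = e r ^ 2`,
`(x+1)/2 = e' s ^ 2`, `y = 2 r s`, `κ = 1`. `κ e'` a square: if `κ = 1` then `e' = 1` (squarefree)
and `s ^ 2 - d r ^ 2 = 1` with `r < y`, against minimality; if `κ = 2` then `e' = 2`, but `d` is odd.
(General fact: `a b = d y ^ 2`, `a, b > 0` coprime, `d` squarefree: `a = e r ^ 2`, `b = e' s ^ 2`.) -/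
def StmtAR : Prop := ∀ d x y : ℤ, 2 ≤ d → Squarefree d → Fund d x y →
  ∃ e e' r s κ : ℤ, 1 ≤ e ∧ 1 ≤ e' ∧ 1 ≤ r ∧ 1 ≤ s ∧ e * e' = d ∧ (κ = 1 ∨ κ = 2) ∧
    (x - 1) * s = e * r * y ∧ (x + 1) * r = e' * s * y ∧ e' * s ^ 2 - e * r ^ 2 = κ ∧
    IsCoprime (e * r) s ∧ IsCoprime (e' * s) r ∧ ¬ IsSquare (κ * e')

/-- NSQ: `n (Q ^ 2 - (d₀ + X) P ^ 2)` is not a square if `n` is not.

Proof. Otherwise (NonSq fails) there is `W ∈ ℚ[X]` with `W ^ 2 = n (Q ^ 2 - (d₀ + X) P ^ 2)`. At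
`- d₀`: `W(-d₀) ^ 2 = n Q(-d₀) ^ 2`, and `n` is not a square in `ℚ`, so `X + d₀` divides `Q` and `W`,
hence `(X + d₀) ^ 2` divides `n (d₀ + X) P ^ 2`, hence `X + d₀` divides `P`: not coprime. -/
def StmtNSQ : Prop := ∀ (P Q : ℤ[X]) (d₀ n : ℤ),
  IsCoprime (P.map (Int.castRingHom ℚ)) (Q.map (Int.castRingHom ℚ)) → ¬ IsSquare n →
  NonSq (C n * (Q ^ 2 - (C d₀ + X) * P ^ 2))

/-- STR: if `B ^ 2 - (d₀ + X) A ^ 2` is a square, the points come from polynomials of a relation with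
`x - 1` or `x + 1`.

Proof. `A ≠ 0`, so `G = B ^ 2 - (d₀ + X) A ^ 2 ≠ 0`, and `G = H ^ 2` in `ℚ[X]`.
`(B - H) (B + H) = (d₀ + X) A ^ 2` and `B - H`, `B + H` are coprime (a common prime factor `π`
divides `B`, `H`, so `π ^ 2 ∣ (d₀ + X) A ^ 2`, so `π ∣ A`). Changing the sign of `H` we may suppose
`X + d₀ ∣ B - H`; then `B + H = c T ^ 2`, `B - H = c⁻¹ (d₀ + X) S ^ 2`, `A = S T`, `c ∈ ℚ`, `c ≠ 0`.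
At a point: `H(τ) ^ 2 = g ^ 2 (x ^ 2 - d y ^ 2) = g ^ 2`, so `H(τ) = ± g` and
`c T(τ) ^ 2 = - g (x ∓ 1)`, `S(τ) T(τ) = y g`, `T(τ) ≠ 0`, so `y c T(τ) + (x ∓ 1) S(τ) = 0`.
Take for `(P, Q)` an integral multiple of `(S, c T)`. -/
def StmtSTR : Prop := ∀ (m : ℕ) (A B : ℤ[X]) (d₀ : ℤ), A ≠ 0 → A.natDegree < m →
  B.natDegree < m → IsCoprime (A.map (Int.castRingHom ℚ)) (B.map (Int.castRingHom ℚ)) →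
  ¬ NonSq (B ^ 2 - (C d₀ + X) * A ^ 2) → ∃ P Q : ℤ[X], (P ≠ 0 ∨ Q ≠ 0) ∧ P.natDegree < m ∧
    Q.natDegree < m ∧ ∀ τ x y g : ℤ, g ≠ 0 → 1 ≤ y → x ^ 2 - (d₀ + τ) * y ^ 2 = 1 →
      A.eval τ = y * g → B.eval τ = - x * g →
      ((x - 1) * P.eval τ + y * Q.eval τ = 0 ∨ (x + 1) * P.eval τ + y * Q.eval τ = 0)

/-- R2D: a relation of degree `< m` makes the determinants vanish (kernel vector). -/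
def StmtR2D : Prop := ∀ (m : ℕ) (T : Finset ℤ) (x y : ℤ → ℤ) (P Q : ℤ[X]), (P ≠ 0 ∨ Q ≠ 0) →
  P.natDegree < m → Q.natDegree < m → (∀ τ ∈ T, x τ * P.eval τ + y τ * Q.eval τ = 0) →
  ∀ f : Fin m ⊕ Fin m → ℤ, (∀ i, f i ∈ T) →
    (Mat m (fun i => x (f i)) (fun i => y (f i)) f).det = 0

/-- SIDE: the fundamental solutions with coprime relations for `x - 1` and `x + 1`.

Proof from AR, NSQ, CUQ. For `τ ∈ T` take `e, e', r, s, κ` from AR for `d = d₀ + τ`. Since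
`(x - 1) s = e r y`: `e r P(τ) + s Q(τ) = 0`, so `P(τ) = s g`, `Q(τ) = - e r g`. Since
`(x + 1) r = e' s y`: `P'(τ) = r h`, `Q'(τ) = - e' s h`.
If `e ≤ z`: with `n = - κ e` (negative, so not a square)
`n (Q(τ) ^ 2 - d P(τ) ^ 2) = n g ^ 2 e (e r ^ 2 - e' s ^ 2) = (n g) ^ 2`, and the polynomial
`n (Q ^ 2 - (d₀ + X) P ^ 2)` is NonSq by NSQ, of degree `≤ 2 m - 1`: at most
`200000 √L Λ ^ 2 log (120 √L Λ)` such `τ` for each `(κ, e)` by CUQ, and there are at most `2 z` pairs.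
If `e' ≤ z`: the same with `n = κ e'` (not a square by AR) and `P', Q'`:
`n (Q'(τ) ^ 2 - d P'(τ) ^ 2) = n h ^ 2 e' (e' s ^ 2 - e r ^ 2) = (n h) ^ 2`.
`E` = these `τ`. For the others `e, e' > z`. If `Q(-d₀) ≠ 0`: `e ∣ Q(τ)` and `τ ≡ - d₀ mod e`, so
`e ∣ gcd (d, Q(-d₀))`. If `Q(-d₀) = 0`: `P(-d₀) ≠ 0` by coprimality, `Q = (X + d₀) Q₂`,
`e e' Q₂(τ) = - e r g`, `gcd (e', r) = 1`, so `e' ∣ g ∣ P(τ)`, `e' ∣ gcd (d, P(-d₀))`. -/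
def StmtSIDE : Prop := ∀ (m : ℕ) (d₀ : ℤ) (L z Λ : ℝ) (T : Finset ℤ) (x y : ℤ → ℤ)
  (P Q P' Q' : ℤ[X]), 1 ≤ m → 1 ≤ L → 1 ≤ z → 1 ≤ Λ → (2 * m : ℝ) ≤ Λ →
  (∀ τ ∈ T, |(τ : ℝ)| ≤ L ∧ 2 ≤ d₀ + τ ∧ Squarefree (d₀ + τ) ∧ Fund (d₀ + τ) (x τ) (y τ)) →
  P.natDegree < m → Q.natDegree < m → P'.natDegree < m → Q'.natDegree < m →
  IsCoprime (P.map (Int.castRingHom ℚ)) (Q.map (Int.castRingHom ℚ)) →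
  IsCoprime (P'.map (Int.castRingHom ℚ)) (Q'.map (Int.castRingHom ℚ)) →
  (∀ τ ∈ T, (x τ - 1) * P.eval τ + y τ * Q.eval τ = 0) →
  (∀ τ ∈ T, (x τ + 1) * P'.eval τ + y τ * Q'.eval τ = 0) →
  (∀ τ ∈ T, 2 * z * |((P.eval τ : ℤ) : ℝ)| ≤ Real.exp Λ ∧
    2 * z * |((P'.eval τ : ℤ) : ℝ)| ≤ Real.exp Λ) →
  ∃ E ⊆ T, (E.card : ℝ) ≤ 800000 * z * √L * Λ ^ 2 * Real.log (120 * √L * Λ) ∧
    (Q.eval (-d₀) ≠ 0 → ∀ τ ∈ T \ E, z < (Int.gcd (d₀ + τ) (Q.eval (-d₀)) : ℝ)) ∧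
    (Q.eval (-d₀) = 0 → P.eval (-d₀) ≠ 0 ∧
      ∀ τ ∈ T \ E, z < (Int.gcd (d₀ + τ) (P.eval (-d₀)) : ℝ))

/-- CLASS: the fundamental solutions with one relation, with `x - 1` or with `x + 1`.

Proof from MIN, R2D, SIDE. From `(x - η) P(τ) + y Q(τ) = 0` and `x ^ 2 - d y ^ 2 = 1` follows
`(x + η) Q(τ) + y (d₀ + τ) P(τ) = 0` (multiply by `x + η`, divide by `y`). So the points
`(x - 1, y)` and `(x + 1, y)` have nonzero relations of degree `< m + 1` on `T`; R2D and MIN for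
`m + 1` give subsets `T₁`, `T₂`, each missing at most `(m + 1) ^ 2` points, with coprime relations
and coefficients `≤ (2 (m + 1) H) ^ (2 (m + 1))`. SIDE for `T₁ ∩ T₂` and `m + 1`, `M = Q(-d₀)` or
`P(-d₀)`. -/
def StmtCLASS : Prop := ∀ (m : ℕ) (d₀ η : ℤ) (L z Λ H : ℝ) (T : Finset ℤ) (x y : ℤ → ℤ)
  (P Q : ℤ[X]), 1 ≤ m → (η = 1 ∨ η = -1) → 1 ≤ d₀ → 1 ≤ L → 1 ≤ z → 1 ≤ Λ → (4 * m : ℝ) ≤ Λ →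
  1 ≤ H →
  (∀ τ ∈ T, |(τ : ℝ)| ≤ L ∧ 2 ≤ d₀ + τ ∧ Squarefree (d₀ + τ) ∧ Fund (d₀ + τ) (x τ) (y τ)) →
  (∀ τ ∈ T, ∀ j < m + 1, |(((x τ + 1) * τ ^ j : ℤ) : ℝ)| ≤ H ∧ |((y τ * τ ^ j : ℤ) : ℝ)| ≤ H) →
  (P ≠ 0 ∨ Q ≠ 0) → P.natDegree < m → Q.natDegree < m →
  (∀ τ ∈ T, (x τ - η) * P.eval τ + y τ * Q.eval τ = 0) →
  2 * z * (m + 1) * (2 * (m + 1) * H) ^ (2 * (m + 1)) * (L + d₀) ^ m ≤ Real.exp Λ →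
  ∃ M : ℤ, M ≠ 0 ∧ |(M : ℝ)| ≤ Real.exp Λ ∧ ∃ E ⊆ T,
    (E.card : ℝ) ≤ 2 * ((m : ℝ) + 1) ^ 2 +
      800000 * z * √L * Λ ^ 2 * Real.log (120 * √L * Λ) ∧
    ∀ τ ∈ T \ E, z < (Int.gcd (d₀ + τ) M : ℝ)

/-- PIG: an interval and a dyadic range of `y`.

Proof from PVG, MIN, CUQ, STR, CLASS. `𝒟` empty: `M = 1`. Fix `d₀ ∈ 𝒟`, `T` = the differences
`d - d₀`, `L = D ^ (1/(8m))`, `x, y` the fundamental solutions. All determinants vanish (PVG).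
`x ≤ 3 D ^ (σ + 1/2)`, `L ^ m ≤ D ^ (1/8)`, so MIN with `H = 8 D ^ (σ + 2)` gives `T'` (missing
`≤ m ^ 2` points), `A, B` coprime, `x A(τ) + y B(τ) = 0`; `T'` nonempty implies `A ≠ 0`. As
`gcd (x, y) = 1`: `A(τ) = y g`, `B(τ) = - x g`, `g ≠ 0` (coprime `A, B` have no common root), and
`G(τ) = g ^ 2` for `G = B ^ 2 - (d₀ + X) A ^ 2` of degree `≤ 2 m - 1`. Put `Λ = C m ^ 2 log D`, so that all coefficient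
and value bounds are `≤ exp Λ` (`σ ≤ m`, `z ≤ D`). If `G` is NonSq: CUQ bounds `T'` and `M = 1`,
`E = 𝒟`. Otherwise STR gives `P, Q` and `T'` splits in two classes; CLASS for each, with `Λ` and `H`;
`M` = the product of the two `M`. Finally `√L = D ^ (1/(16m))`, `log (120 √L Λ) ≤ C Λ`. -/
def StmtPIG : Prop := ∃ C₈ : ℝ, 1 ≤ C₈ ∧ ∀ (D V σ z : ℝ) (m : ℕ) (𝒟 : Finset ℤ), C₈ ≤ D →
  1 ≤ m → 0 ≤ σ → 2 * (2 * σ + 1) ^ 2 ≤ m → C₈ * m ≤ Real.log D → 1 ≤ V → V ≤ D ^ σ →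
  1 ≤ z → z ≤ D →
  (∀ d ∈ 𝒟, D ≤ d ∧ (d : ℝ) ≤ 2 * D ∧ Squarefree d ∧
    ∃ x y : ℤ, Fund d x y ∧ V ≤ y ∧ (y : ℝ) < 2 * V) →
  (∀ d ∈ 𝒟, ∀ d' ∈ 𝒟, |(d : ℝ) - d'| ≤ D ^ (1 / (8 * (m : ℝ)))) →
  ∃ M : ℤ, M ≠ 0 ∧ Real.log |(M : ℝ)| ≤ C₈ * (m : ℝ) ^ 2 * Real.log D ∧ ∃ E ⊆ 𝒟,
    (E.card : ℝ) ≤ C₈ * z * D ^ (1 / (16 * (m : ℝ))) * ((m : ℝ) ^ 2 * Real.log D) ^ 3 ∧
    ∀ d ∈ 𝒟 \ E, z < (Int.gcd d M : ℝ)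

/-- B1: squarefree numbers with many prime factors: `∑_{d ≤ Y} 2 ^ ω(d) ≤ ∑_{d ≤ Y} τ(d)
≤ Y (1 + log Y)`. -/
def StmtB1 : Prop := ∀ (K : ℕ) (Y : ℝ), 1 ≤ Y →
  ({d : ℤ | 1 ≤ d ∧ (d : ℝ) ≤ Y ∧ Squarefree d ∧ K ≤ d.natAbs.primeFactors.card}.ncard : ℝ) ≤
    Y * (1 + Real.log Y) / 2 ^ K

/-- B2: a large common prime factor with a fixed number: `M` has at most `log |M| / log 2` prime
factors, each `p > P₀` divides at most `L / p + 1` of the integers of the interval. -/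
def StmtB2 : Prop := ∀ (M : ℤ) (a L P₀ : ℝ), M ≠ 0 → 0 ≤ L → 1 ≤ P₀ →
  ({d : ℤ | a ≤ d ∧ (d : ℝ) ≤ a + L ∧ ∃ p : ℕ, p.Prime ∧ P₀ < p ∧ (p : ℤ) ∣ M ∧
    (p : ℤ) ∣ d}.ncard : ℝ) ≤ Real.log |(M : ℝ)| / Real.log 2 * (L / P₀ + 1)

/-- B3: an interval and a dyadic range, squarefree `d` with at most `K` prime factors.

Proof from PIG, B2: `𝒟` = the set (finite); for `d ∈ 𝒟 \ E` the number `gcd (d, M) > z ≥ P₀ ^ K` is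
squarefree with at most `K` prime factors, so one of them is `> P₀`. -/
def StmtB3 : Prop := ∃ C₉ : ℝ, 1 ≤ C₉ ∧ ∀ (D V σ z P₀ a : ℝ) (m K : ℕ), C₉ ≤ D →
  1 ≤ m → 0 ≤ σ → 2 * (2 * σ + 1) ^ 2 ≤ m → C₉ * m ≤ Real.log D → 1 ≤ V → V ≤ D ^ σ →
  1 ≤ z → z ≤ D → 1 ≤ P₀ → P₀ ^ K ≤ z →
  ({d : ℤ | a ≤ d ∧ (d : ℝ) ≤ a + D ^ (1 / (8 * (m : ℝ))) ∧ D ≤ d ∧ (d : ℝ) ≤ 2 * D ∧
    Squarefree d ∧ d.natAbs.primeFactors.card ≤ K ∧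
    ∃ x y : ℤ, Fund d x y ∧ V ≤ y ∧ (y : ℝ) < 2 * V}.ncard : ℝ) ≤
    C₉ * z * D ^ (1 / (16 * (m : ℝ))) * ((m : ℝ) ^ 2 * Real.log D) ^ 3 +
      C₉ * (m : ℝ) ^ 2 * Real.log D * (D ^ (1 / (8 * (m : ℝ))) / P₀ + 1)

/-- B4: the block `[D, 2 D]`: at most `D / L + 1` intervals of length `L = D ^ (1/(8m))` and
`2 σ log D + 1` dyadic ranges `V = 2 ^ i ≤ D ^ σ`. -/
def StmtB4 : Prop := ∃ C₉ : ℝ, 1 ≤ C₉ ∧ ∀ (D σ z P₀ : ℝ) (m K : ℕ), C₉ ≤ D →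
  1 ≤ m → 0 ≤ σ → 2 * (2 * σ + 1) ^ 2 ≤ m → C₉ * m ≤ Real.log D →
  1 ≤ z → z ≤ D → 1 ≤ P₀ → P₀ ^ K ≤ z →
  ({d : ℤ | D ≤ d ∧ (d : ℝ) ≤ 2 * D ∧ Squarefree d ∧ d.natAbs.primeFactors.card ≤ K ∧
    ∃ x y : ℤ, Fund d x y ∧ (y : ℝ) ≤ D ^ σ}.ncard : ℝ) ≤
    (D / D ^ (1 / (8 * (m : ℝ))) + 1) * (2 * σ * Real.log D + 1) *
    (C₉ * z * D ^ (1 / (16 * (m : ℝ))) * ((m : ℝ) ^ 2 * Real.log D) ^ 3 +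
      C₉ * (m : ℝ) ^ 2 * Real.log D * (D ^ (1 / (8 * (m : ℝ))) / P₀ + 1))

/-- BLK: the block, with all parameters chosen.

Proof from B1, B4. Put `l = log D`, `σ = l ^ (1/2 - δ)`, `m = ⌈2 (2 σ + 1) ^ 2⌉ ≤ 19 l ^ (1 - 2δ)`,
`L = D ^ (1/(8m)) ≥ exp (l ^ (2δ) / 152)`, `z = L ^ (1/4)`, `P₀ = exp (l ^ δ)`,
`K = ⌊log z / l ^ δ⌋ ≥ l ^ δ / 608 - 1`. B1 with `K + 1`, `Y = 2 D` and B4: the total is at most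
`2 D (1 + log (2 D)) / 2 ^ (K + 1) + (2 D / L) (2 l ^ 2 + 1) (C L ^ (3/4) (m ^ 2 l) ^ 3 +
2 C m ^ 2 l L / P₀)`, which is `≤ D exp (- l ^ (δ/2))` for large `D`. -/
def StmtBLK : Prop := ∀ δ : ℝ, 0 < δ → δ < 1 / 2 → ∃ D₁ : ℝ, 1 ≤ D₁ ∧ ∀ D : ℝ, D₁ ≤ D →
  ({d : ℤ | D ≤ d ∧ (d : ℝ) ≤ 2 * D ∧ Squarefree d ∧
    ∃ x y : ℤ, Fund d x y ∧ (y : ℝ) ≤ Real.exp (Real.log D ^ (3 / 2 - δ))}.ncard : ℝ) ≤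
    D * Real.exp (-(Real.log D ^ (δ / 2)))

/-- UFIN: all squarefree `d ≤ X`.

Proof from BLK with `δ' = 3 δ / 4`: `d ≤ √X` trivially; for `√X ≤ D ≤ X` and large `X`
`(log D) ^ (3/2 - 3δ/4) ≥ (log X) ^ (3/2 - δ)`; a `d` with a solution has a least one (`Fund`), with
a smaller `y`. Sum of the dyadic blocks `D = X / 2 ^ (j + 1)`, `(log D) ^ (3δ/8) ≥
(log X / 2) ^ (3δ/8) ≥ (log X) ^ (δ/4)` for large `X`; small `X` by `M`. -/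
def StmtUFIN : Prop := ∀ δ : ℝ, 0 < δ → δ < 1 / 2 → ∃ M : ℝ, ∀ X : ℝ, 1 ≤ X →
  ({d : ℤ | 2 ≤ d ∧ (d : ℝ) ≤ X ∧ Squarefree d ∧ ∃ x y : ℤ, 1 ≤ y ∧
    (y : ℝ) ≤ Real.exp (Real.log X ^ (3 / 2 - δ)) ∧ x ^ 2 - d * y ^ 2 = 1}.ncard : ℝ) ≤
    M * X * Real.exp (-(Real.log X ^ (δ / 4)))

/-- UNI: from a unit to a solution of the Pell equation.

Proof. Square: `a = (t ^ 2 + D u ^ 2) / 2`, `b = t u`: `a ^ 2 - D b ^ 2 = 4`,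
`(a + b √D) / 2 = ((t + u √D) / 2) ^ 2`. If `a` is odd take its cube, which is `x + y √D` with
`x = a (a ^ 2 - 3) / 2`, `y = b (a ^ 2 - 1) / 2` (use `D b ^ 2 = a ^ 2 - 4`); if `a` is even take its
square `x = (a ^ 2 - 2) / 2`, `y = a b / 2`. The solution is the fourth or sixth power of the unit,
which is `> 1`. -/
def StmtUNI : Prop := ∀ D t u : ℤ, 5 ≤ D → 1 ≤ t → 1 ≤ u →
  (t ^ 2 - D * u ^ 2 = 4 ∨ t ^ 2 - D * u ^ 2 = -4) →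
  ∃ x y : ℤ, 1 ≤ x ∧ 1 ≤ y ∧ x ^ 2 - D * y ^ 2 = 1 ∧
    (x : ℝ) + y * √(D : ℝ) ≤ (((t : ℝ) + u * √(D : ℝ)) / 2) ^ 6

end

end Pool.Agent.Q276.PL
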