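import Pool.Agent.H45.Lib.Ts3997aac3.Q276.PL.FinU
import Pool.Agent.H45.Lib.Ts3997aac3.Q208.PL.DPG
import Pool.Agent.H45.Lib.Ts3997aac3.Q211.PL.PP1
import Pool.Agent.H45.Lib.Ts3997aac3.Q182.PL.MIN
import Pool.Agent.H45.Lib.Ts3997aac3.Q288.PL.PAS
import Pool.Agent.H45.Lib.Ts3997aac3.Q288.PL.CLQ
import Pool.Agent.H45.Lib.Ts3997aac3.Q164.PL.CUQ
import Pool.Agent.H45.Lib.Ts3997aac3.Q121.PL.PIG
import Pool.Agent.H45.Lib.Ts3997aac3.Q182.PL.SIDE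
import Pool.Agent.H45.Lib.Ts3997aac3.Q109.PLJ.CLS
import Pool.Agent.H45.Lib.Ts3997aac3.Q109.PLJ.PVG
import Pool.Agent.H45.Lib.Ts3997aac3.Q109.PLJ.AR
import Pool.Agent.H45.Lib.Ts3997aac3.Q109.PLJ.BLK
import Pool.Agent.H45.Lib.Ts3997aac3.Q65.PL.B4
import Pool.Agent.H45.Lib.Ts3997aac3.Q65.PL.B3
import Pool.Agent.H45.Lib.Ts3997aac3.Q210.PL.B1
import Pool.Agent.H45.Lib.Ts3997aac3.Q210.PL.B2
import Pool.Agent.H45.Lib.Ts3997aac3.Q276.PL.NSQ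
import Pool.Agent.H45.Lib.Ts3997aac3.Q247.PL.Str
import Pool.Agent.H45.Lib.Ts3997aac3.Q94.PL.R2D
import Pool.Agent.H45.Lib.Ts3997aac3.Q144.PL_UFIN
import Pool.Agent.H45.Lib.Ts3997aac3.Q151.PL.Uni
import Pool.Agent.H45.Lib.Ts3997aac3.Q151.PL.Rgb

/-! Assembly: few squarefree `d` with a small unit. -/

set_option autoImplicit false

namespace Pool.Agent.Q276.PL

open Pool.Agent.W223.PL

theorem cuq_true : StmtCUQ := Pool.Agent.Q164.PL.cuq (Pool.Agent.Q288.PL.clq Pool.Agent.Q288.PL.pas)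

theorem pvg_true : StmtPVG := Pool.Agent.Q109.PLJ.pvg Pool.Agent.Q208.PL.dpg Pool.Agent.Q211.PL.pp1

theorem side_true : StmtSIDE :=
  Pool.Agent.Q182.PL.side Pool.Agent.Q109.PLJ.ar Pool.Agent.Q276.PL.nsq cuq_true

theorem class_true : StmtCLASS :=
  Pool.Agent.Q109.PLJ.cls Pool.Agent.Q182.PL.min Pool.Agent.Q94.PL.r2d side_true

theorem pig_true : StmtPIG :=
  Pool.Agent.Q121.PL.pig pvg_true Pool.Agent.Q182.PL.min cuq_true Pool.Agent.Q247.PL.str class_true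

theorem ufin_true : StmtUFIN :=
  Pool.Agent.Q144.UF.ufin (Pool.Agent.Q109.PLJ.blk Pool.Agent.Q210.PL.b1
    (Pool.Agent.Q65.PL.b4 (Pool.Agent.Q65.PL.b3 pig_true Pool.Agent.Q210.PL.b2)))

theorem rgb_true : StmtRGB := Pool.Agent.Q151.PL.rgb ufin_true Pool.Agent.Q151.PL.uni

end Pool.Agent.Q276.PL
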