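import Pool.Agent.H45.Lib.Ts3997aac3.Q276.PL.Stm2
import Pool.Agent.H45.Lib.S8.TH4.HS.Sqf

/-! From `StmtRGB` to fundamental discriminants. -/

set_option autoImplicit false

namespace Pool.Agent.Q276.PL

open Filter

/-- Positive fundamental discriminants. -/
def FundDisc (D : ℕ) : Prop := (D % 4 = 1 ∧ Squarefree D) ∨
  (D % 4 = 0 ∧ ((D / 4) % 4 = 2 ∨ (D / 4) % 4 = 3) ∧ Squarefree (D / 4))

/-- The squarefree part of the radicand. -/
def radi (D : ℕ) : ℕ := if D % 4 = 1 then D else D / 4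

theorem dsc_radi {D : ℕ} (h : FundDisc D) : dsc (radi D) = D := by
  unfold dsc radi
  rcases h with ⟨h, _⟩ | ⟨h, h2, _⟩
  · rw [if_pos h, if_pos h]
  · rw [if_neg (by omega : ¬ D % 4 = 1), if_neg (by omega)]
    omega

theorem sqf_radi {D : ℕ} (h : FundDisc D) : Squarefree (radi D) := by
  unfold radi
  rcases h with ⟨h, h1⟩ | ⟨h, _, h1⟩
  · rwa [if_pos h]
  · rwa [if_neg (by omega : ¬ D % 4 = 1)]

theorem radi_le (D : ℕ) : radi D ≤ D := by
  unfold radi
  split_ifs <;> omega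

theorem radi_ge {D : ℕ} (h : FundDisc D) (h1 : 1 < D) : 2 ≤ radi D := by
  unfold radi
  rcases h with ⟨h, _⟩ | ⟨h, h2, _⟩
  · rw [if_pos h]; omega
  · rw [if_neg (by omega : ¬ D % 4 = 1)]; omega

theorem fund_dsc {d : ℕ} (h : Squarefree d) : FundDisc (dsc d) := by
  unfold dsc FundDisc
  have h4 : d % 4 ≠ 0 := by
    intro h0
    have h2 : 2 * 2 ∣ d := by omega
    have := h 2 h2
    rw [Nat.isUnit_iff] at this
    omega
  split_ifs with h1
  · exact Or.inl ⟨h1, h⟩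
  · refine Or.inr ⟨by omega, ?_, ?_⟩
    · rw [Nat.mul_div_cancel_left _ (by norm_num)]; omega
    · rw [Nat.mul_div_cancel_left _ (by norm_num)]; exact h

theorem noUnit_one (B : ℝ) : ¬ SmallUnit 1 B := by
  rintro ⟨t, u, ht, hu, h, -⟩
  have ht' : (1 : ℤ) ≤ t := by exact_mod_cast ht
  have hu' : (1 : ℤ) ≤ u := by exact_mod_cast hu
  rcases h with h | h
  · have h1 : ((t : ℤ) - u) * (t + u) = 4 := by push_cast at h; linarith
    have h2 : (0 : ℤ) < (t : ℤ) - u := by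
      by_contra hc
      have : ((t : ℤ) - u) * (t + u) ≤ 0 := mul_nonpos_of_nonpos_of_nonneg (by linarith) (by linarith)
      linarith
    have h3 : (t : ℤ) + u ≤ 4 := by nlinarith
    have h4 : (t : ℤ) ≤ 3 := by linarith
    have h5 : (u : ℤ) ≤ 3 := by linarith
    interval_cases (t : ℤ) <;> interval_cases (u : ℤ) <;> omega
  · have h1 : ((u : ℤ) - t) * (t + u) = 4 := by push_cast at h; linarith
    have h2 : (0 : ℤ) < (u : ℤ) - t := by
      by_contra hc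
      have : ((u : ℤ) - t) * (t + u) ≤ 0 := mul_nonpos_of_nonpos_of_nonneg (by linarith) (by linarith)
      linarith
    have h3 : (t : ℤ) + u ≤ 4 := by nlinarith
    have h4 : (t : ℤ) ≤ 3 := by linarith
    have h5 : (u : ℤ) ≤ 3 := by linarith
    interval_cases (t : ℤ) <;> interval_cases (u : ℤ) <;> omega

open scoped Classical in
/-- the count of fundamental discriminants with a small unit -/
theorem count_le (N : ℕ) (B : ℝ) :
    ({D : ℕ | 1 ≤ D ∧ D ≤ N ∧ FundDisc D ∧ SmallUnit D B}.ncard : ℝ) ≤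
      (((Finset.Icc 2 N).filter (fun d => Squarefree d ∧ SmallUnit (dsc d) B)).card : ℝ) := by
  have h1 : {D : ℕ | 1 ≤ D ∧ D ≤ N ∧ FundDisc D ∧ SmallUnit D B}.ncard ≤
      ((Finset.Icc 2 N).filter (fun d => Squarefree d ∧ SmallUnit (dsc d) B)).card := by
    rw [← Set.ncard_coe_finset]
    refine Set.ncard_le_ncard_of_injOn radi ?_ ?_ (Finset.finite_toSet _)
    · rintro D ⟨hD1, hDN, hF, hU⟩
      have hD : 1 < D := by
        rcases Nat.lt_or_ge 1 D with h | h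
        · exact h
        · exfalso
          have : D = 1 := by omega
          rw [this] at hU
          exact noUnit_one B hU
      simp only [Finset.coe_filter, Finset.mem_Icc, Set.mem_ofPred_eq]
      exact ⟨⟨radi_ge hF hD, (radi_le D).trans hDN⟩, sqf_radi hF, by rw [dsc_radi hF]; exact hU⟩
    · rintro D ⟨-, -, hF, -⟩ D' ⟨-, -, hF', -⟩ he
      rw [← dsc_radi hF, ← dsc_radi hF', he]
  exact_mod_cast h1

/-- many fundamental discriminants -/
theorem count_ge (N : ℕ) :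
    (N : ℝ) / 16 - 1 ≤ ({D : ℕ | 1 ≤ D ∧ D ≤ N ∧ FundDisc D}.ncard : ℝ) := by
  classical
  have h0 := Pool.Agent.TH4.HS.sq_count (N / 4)
  have h1 : ((Finset.Ioc 0 (N / 4)).filter fun m => Squarefree m).card ≤
      {D : ℕ | 1 ≤ D ∧ D ≤ N ∧ FundDisc D}.ncard := by
    rw [← Set.ncard_coe_finset]
    refine Set.ncard_le_ncard_of_injOn dsc ?_ ?_
      ((Set.finite_Icc 1 N).subset fun D hD => ⟨hD.1, hD.2.1⟩)
    · intro d hd
      simp only [Finset.coe_filter, Finset.mem_Ioc, Set.mem_ofPred_eq] at hd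
      have hb : d ≤ dsc d ∧ dsc d ≤ 4 * d := by unfold dsc; split_ifs <;> omega
      exact ⟨by omega, by omega, fund_dsc hd.2⟩
    · intro d hd d' hd' he
      simp only [Finset.coe_filter, Finset.mem_Ioc, Set.mem_ofPred_eq] at hd hd'
      unfold dsc at he
      split_ifs at he <;> omega
  have h2 : (N : ℝ) / 4 - 1 ≤ ((N / 4 : ℕ) : ℝ) := by
    have := Nat.div_add_mod N 4
    have h3 : N % 4 < 4 := Nat.mod_lt _ (by norm_num)
    have h4 : (4 : ℝ) * ((N / 4 : ℕ) : ℝ) + ((N % 4 : ℕ) : ℝ) = N := by exact_mod_cast this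
    have h5 : ((N % 4 : ℕ) : ℝ) ≤ 4 := by exact_mod_cast h3.le
    linarith
  have h6 : (((Finset.Ioc 0 (N / 4)).filter fun m => Squarefree m).card : ℝ) ≤
      ({D : ℕ | 1 ≤ D ∧ D ≤ N ∧ FundDisc D}.ncard : ℝ) := by exact_mod_cast h1
  linarith

/-- a bound with the discriminant itself is a bound with `N` -/
theorem mono_unit {D N : ℕ} (h1 : 1 ≤ D) (h : D ≤ N) {a : ℝ} (ha : 0 < a)
    (hU : SmallUnit D (Real.exp (Real.log D ^ a))) : SmallUnit D (Real.exp (Real.log N ^ a)) := by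
  obtain ⟨t, u, ht, hu, he, hb⟩ := hU
  refine ⟨t, u, ht, hu, he, hb.trans ?_⟩
  apply Real.exp_le_exp.2
  apply Real.rpow_le_rpow (Real.log_natCast_nonneg D) _ ha.le
  exact Real.log_le_log (by exact_mod_cast h1) (by exact_mod_cast h)

theorem tendsto_aux (a : ℝ) (ha : 0 < a) (M : ℝ) :
    Tendsto (fun N : ℕ => M * N * Real.exp (-(Real.log N ^ a)) / ((N : ℝ) / 16 - 1)) atTop
      (nhds 0) := by
  have h1 : Tendsto (fun N : ℕ => Real.exp (-(Real.log N ^ a))) atTop (nhds 0) := by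
    refine Real.tendsto_exp_neg_atTop_nhds_zero.comp ?_
    exact (tendsto_rpow_atTop ha).comp (Real.tendsto_log_atTop.comp tendsto_natCast_atTop_atTop)
  have h2 : Tendsto (fun N : ℕ => (32 * |M|) * Real.exp (-(Real.log N ^ a))) atTop (nhds 0) := by
    simpa using h1.const_mul (32 * |M|)
  refine squeeze_zero_norm' ?_ h2
  filter_upwards [eventually_ge_atTop 32] with N hN
  have hN' : (32 : ℝ) ≤ N := by exact_mod_cast hN
  have h3 : 0 < (N : ℝ) / 16 - 1 := by linarith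
  rw [Real.norm_eq_abs, abs_div, abs_mul, abs_mul, abs_of_pos h3, abs_of_nonneg (by linarith : (0:ℝ) ≤ N),
    abs_of_pos (Real.exp_pos _), div_le_iff₀ h3]
  have h4 : (N : ℝ) ≤ 32 * ((N : ℝ) / 16 - 1) := by linarith
  calc |M| * N * Real.exp (-(Real.log N ^ a)) ≤
        |M| * (32 * ((N : ℝ) / 16 - 1)) * Real.exp (-(Real.log N ^ a)) := by
        gcongr
    _ = _ := by ring

/-- The result for fundamental units. -/
theorem finU (hRGB : StmtRGB) (δ : ℝ) (hδ : 0 < δ) (hδ2 : δ < 1 / 2) :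
    (∃ M : ℝ, ∀ N : ℕ, 2 ≤ N →
      ({D : ℕ | 1 ≤ D ∧ D ≤ N ∧ FundDisc D ∧
        SmallUnit D (Real.exp (Real.log N ^ (3 / 2 - δ)))}.ncard : ℝ) ≤
        M * N * Real.exp (-(Real.log N ^ (δ / 8)))) ∧
    Tendsto (fun N : ℕ => ({D : ℕ | 1 ≤ D ∧ D ≤ N ∧ FundDisc D ∧
        SmallUnit D (Real.exp (Real.log D ^ (3 / 2 - δ)))}.ncard : ℝ) /
        ({D : ℕ | 1 ≤ D ∧ D ≤ N ∧ FundDisc D}.ncard : ℝ)) atTop (nhds 0) := by
  obtain ⟨M, hM⟩ := hRGB δ hδ hδ2
  have h1 : ∀ N : ℕ, 2 ≤ N →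
      ({D : ℕ | 1 ≤ D ∧ D ≤ N ∧ FundDisc D ∧
        SmallUnit D (Real.exp (Real.log N ^ (3 / 2 - δ)))}.ncard : ℝ) ≤
        M * N * Real.exp (-(Real.log N ^ (δ / 8))) := fun N hN =>
    (count_le N _).trans (hM N hN)
  refine ⟨⟨M, h1⟩, ?_⟩
  refine squeeze_zero' (Eventually.of_forall fun N => by positivity) ?_
    (tendsto_aux (δ / 8) (by linarith) M)
  filter_upwards [eventually_ge_atTop 32] with N hN
  have hN' : (32 : ℝ) ≤ N := by exact_mod_cast hN
  have h3 : 0 < (N : ℝ) / 16 - 1 := by linarith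
  have h2 : ({D : ℕ | 1 ≤ D ∧ D ≤ N ∧ FundDisc D ∧
        SmallUnit D (Real.exp (Real.log D ^ (3 / 2 - δ)))}.ncard : ℝ) ≤
      ({D : ℕ | 1 ≤ D ∧ D ≤ N ∧ FundDisc D ∧
        SmallUnit D (Real.exp (Real.log N ^ (3 / 2 - δ)))}.ncard : ℝ) := by
    have : {D : ℕ | 1 ≤ D ∧ D ≤ N ∧ FundDisc D ∧
        SmallUnit D (Real.exp (Real.log D ^ (3 / 2 - δ)))}.ncard ≤
      {D : ℕ | 1 ≤ D ∧ D ≤ N ∧ FundDisc D ∧
        SmallUnit D (Real.exp (Real.log N ^ (3 / 2 - δ)))}.ncard := by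
      refine Set.ncard_le_ncard ?_ ((Set.finite_Icc 1 N).subset fun D hD => ⟨hD.1, hD.2.1⟩)
      rintro D ⟨a, b, c, d⟩
      exact ⟨a, b, c, mono_unit a b (by linarith) d⟩
    exact_mod_cast this
  have h4 := h2.trans (h1 N (by omega))
  exact div_le_div₀ (le_trans (by positivity) h4) h4 h3 (count_ge N)

end Pool.Agent.Q276.PL
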